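import Mathlib

open Filter Topology

namespace Pool.Agent.Results.MP_d408b2_an.NoLimit

/-- `y m = x (m - 2)`: a positive solution of `x (n+1) = max {A, x n, x (n-1)} / x (n-2)`. -/
def IsSol (A : ℝ) (y : ℕ → ℝ) : Prop :=
  (∀ n, 0 < y n) ∧ ∀ n, y (n + 3) = max A (max (y (n + 2)) (y (n + 1))) / y n

noncomputable def I (A u v w : ℝ) : ℝ :=
  max (max A (max w v)) u * (max 1 u / u) * ((max 1 v / v) * (max 1 w / w))

lemma half (m u t : ℝ) (hu : 0 < u) (ht : 0 < t) (h : u * t = m) :
    max m u * (max 1 u / u) = max 1 u * max 1 t := by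
  have : max m u = u * max 1 t := by
    rw [mul_max_of_nonneg _ _ hu.le, mul_one, h, max_comm]
  rw [this]; field_simp

lemma I_inv {A : ℝ} {y : ℕ → ℝ} (hy : IsSol A y) (n : ℕ) :
    I A (y (n + 1)) (y (n + 2)) (y (n + 3)) = I A (y n) (y (n + 1)) (y (n + 2)) := by
  have h : y n * y (n + 3) = max A (max (y (n + 2)) (y (n + 1))) := by
    rw [hy.2 n]; field_simp [(hy.1 n).ne']
  have h1 := half _ _ _ (hy.1 n) (hy.1 (n + 3)) h
  have h2 := half _ _ _ (hy.1 (n + 3)) (hy.1 n) ((mul_comm _ _).trans h)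
  unfold I
  rw [h1]
  have e : max (max A (max (y (n + 3)) (y (n + 2)))) (y (n + 1)) =
      max (max A (max (y (n + 2)) (y (n + 1)))) (y (n + 3)) := by
    simp only [max_assoc]
    rw [max_comm (y (n + 3)) (max (y (n + 2)) (y (n + 1))), max_assoc]
  rw [e]
  linear_combination (max 1 (y (n + 1)) / y (n + 1) * (max 1 (y (n + 2)) / y (n + 2))) * h2

lemma aux (u : ℝ) (hu : 0 < u) : 1 ≤ max 1 u / u ∧ 1 ≤ u * (max 1 u / u) ∧
    (u < 1 → 1 < max 1 u / u) := by
  refine ⟨by rw [le_div_iff₀ hu]; simp, by rw [mul_div_cancel₀ _ hu.ne']; simp, fun h => ?_⟩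
  rw [lt_div_iff₀ hu]; simp [h]

lemma I_one {A u v w : ℝ} (hu : 0 < u) (hv : 0 < v) (hw : 0 < w) (h : I A u v w = 1) :
    u = 1 := by
  unfold I at h
  obtain ⟨a1, a2, a3⟩ := aux u hu
  obtain ⟨b1, b2, b3⟩ := aux v hv
  obtain ⟨c1, c2, c3⟩ := aux w hw
  set M := max (max A (max w v)) u with hM
  have m1 : u ≤ M := le_max_right _ _
  have m2 : v ≤ M := (le_max_right w v).trans ((le_max_right _ _).trans (le_max_left _ _))
  set U := max 1 u / u
  set V := max 1 v / v
  set W := max 1 w / w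
  rcases lt_trichotomy u 1 with h1 | h1 | h1
  · exfalso
    have t1 : 1 ≤ M * V := b2.trans (mul_le_mul_of_nonneg_right m2 (by linarith))
    have t2 : 1 < U * W := by nlinarith [a3 h1]
    nlinarith
  · exact h1
  · exfalso
    have t1 : 1 ≤ V * W := by nlinarith
    have t2 : 1 < M * U := by nlinarith
    nlinarith

lemma back {A : ℝ} {y : ℕ → ℝ} (hy : IsSol A y) (L : ℝ) (hL : L * L = max A L) (N : ℕ)
    (h : ∀ n ≥ N, y n = L) : ∀ n, y n = L := by
  induction N with
  | zero => exact fun n => h n (Nat.zero_le _)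
  | succ N ih =>
    refine ih fun n hn => ?_
    rcases hn.eq_or_lt with h1 | h1
    · rw [h1] at h
      have h2 := hy.2 n
      have hL0 : 0 < L := h (n + 1) le_rfl ▸ hy.1 _
      rw [h (n + 3) (by omega), h (n + 2) (by omega), h (n + 1) (by omega), max_self, ← hL,
        eq_div_iff (hy.1 n).ne'] at h2
      exact mul_left_cancel₀ hL0.ne' h2
    · exact h n h1

theorem result (A : ℝ) (hA : 0 < A) (y : ℕ → ℝ) (hy : IsSol A y)
    (hnc : ¬ ∃ c, ∀ n, y n = c) : ¬ ∃ L : ℝ, Tendsto y atTop (𝓝 L) := by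
  rintro ⟨L, hL⟩
  apply hnc
  have t : ∀ j, Tendsto (fun n => y (n + j)) atTop (𝓝 L) :=
    fun j => hL.comp (tendsto_add_atTop_nat j)
  have h : ∀ n, y n * y (n + 3) = max A (max (y (n + 2)) (y (n + 1))) := fun n => by
    rw [hy.2 n]; field_simp [(hy.1 n).ne']
  have hLL : L * L = max A L := by
    have t1 := hL.mul (t 3)
    have t2 := (tendsto_const_nhds (x := A)).max ((t 2).max (t 1))
    rw [max_self] at t2
    exact tendsto_nhds_unique (t1.congr h) t2
  have hL0 : 0 ≤ L := ge_of_tendsto' hL fun n => (hy.1 n).le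
  have hLpos : 0 < L := by
    rcases hL0.eq_or_lt with h0 | h0
    · rw [← h0, max_eq_left hA.le] at hLL; linarith
    · exact h0
  rcases le_or_gt A L with hAL | hAL
  · rw [max_eq_right hAL] at hLL
    have hL1 : L = 1 := mul_left_cancel₀ hLpos.ne' (by rw [hLL, mul_one])
    subst hL1
    have hc : ∀ n, I A (y n) (y (n + 1)) (y (n + 2)) = I A (y 0) (y 1) (y 2) := by
      intro n
      induction n with
      | zero => rfl
      | succ n ih => rw [← ih]; exact I_inv hy n
    have q : ∀ j, Tendsto (fun n => max 1 (y (n + j)) / y (n + j)) atTop (𝓝 (max 1 1 / 1)) :=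
      fun j => (tendsto_const_nhds.max (t j)).div (t j) one_ne_zero
    have t3 : Tendsto (fun n => I A (y n) (y (n + 1)) (y (n + 2))) atTop (𝓝 (I A 1 1 1)) :=
      ((((tendsto_const_nhds.max ((t 2).max (t 1))).max hL).mul (q 0)).mul ((q 1).mul (q 2)))
    have e1 : I A 1 1 1 = 1 := by simp [I, hAL]
    have e2 : I A (y 0) (y 1) (y 2) = 1 := by
      rw [← e1]
      exact tendsto_nhds_unique tendsto_const_nhds (t3.congr hc)
    exact ⟨1, fun n => I_one (hy.1 _) (hy.1 _) (hy.1 _) ((hc n).trans e2)⟩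
  · obtain ⟨N, hN⟩ := eventually_atTop.1 (hL.eventually (gt_mem_nhds hAL))
    have h3 : ∀ n ≥ N, y n * y (n + 3) = A := fun n hn => by
      rw [h n, max_eq_left (max_le (hN _ (by omega)).le (hN _ (by omega)).le)]
    have h6 : ∀ n ≥ N, y (n + 6) = y n := fun n hn => by
      have a1 := h3 n hn
      have a2 := h3 (n + 3) (by omega)
      exact mul_left_cancel₀ (hy.1 (n + 3)).ne' (by rw [a2, mul_comm, a1])
    refine ⟨L, back hy L hLL N fun n hn => ?_⟩
    have h7 : ∀ k, y (n + 6 * k) = y n := by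
      intro k
      induction k with
      | zero => rfl
      | succ k ih => rw [← ih, ← h6 (n + 6 * k) (by omega)]; rfl
    have t4 : Tendsto (fun k => y (n + 6 * k)) atTop (𝓝 L) :=
      hL.comp (tendsto_atTop_mono (fun k => by simp only [id]; omega) tendsto_id)
    exact tendsto_nhds_unique tendsto_const_nhds (t4.congr h7)

end Pool.Agent.Results.MP_d408b2_an.NoLimit
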